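import Mathlib

/-!
# Strong `∨₂`-free families in three-dimensional grids

The asked formula `La*([k]^d, ∨₂) = (1 + 1/d + o(1)) w_{k,d}` fails for `d = 3`: the points
`(x, y, z)` of `[k]^3` (coordinates `0, ..., k-1`) with `x + y + ⌊z/2⌋ = r`, together with the
points with `z` odd, `x + y + ⌊z/2⌋ = r + 1` and `x ≡ y mod 3`, form a strong `∨₂`-free family.
For `k = 4q` and `r = 5q - 1` it has at least `(49 q² - 6 q) / 3` points, while the width of
`[k]^3` is at most `12 q²`; the ratio is at least `49/36 - o(1) > 4/3`.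
-/

namespace Pool.Agent.Results.MP_8ac0e4_co.VeeGrid

open Filter Topology

/-- The grid `[k]^d`, with the coordinatewise order of the function type. -/
abbrev Grid (k d : ℕ) : Type := Fin d → Fin k

/-- `F` contains a strong (induced) copy of `P`. -/
def HasStrongCopy (P : Type) [PartialOrder P] {Q : Type} [PartialOrder Q] (F : Finset Q) : Prop :=
  ∃ f : P → Q, Function.Injective f ∧ (∀ p, f p ∈ F) ∧ ∀ p q, p ≤ q ↔ f p ≤ f q

/-- The width of the grid: the largest size of an antichain. -/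
noncomputable def w (k d : ℕ) : ℕ :=
  sSup {n | ∃ F : Finset (Grid k d), IsAntichain (· ≤ ·) (F : Set (Grid k d)) ∧ F.card = n}

/-- The largest size of a strong `P`-free family in `[k]^d`. -/
noncomputable def LaStar (k d : ℕ) (P : Type) [PartialOrder P] : ℕ :=
  sSup {n | ∃ F : Finset (Grid k d), ¬ HasStrongCopy P F ∧ F.card = n}

/-- The elements of the poset `∨₂`. -/
inductive Vee : Type
  | a | b1 | b2
  deriving DecidableEq

/-- `∨₂`: `a < b1`, `a < b2`, and `b1`, `b2` are incomparable. -/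
instance : PartialOrder Vee where
  le x y := x = y ∨ x = Vee.a
  le_refl x := Or.inl rfl
  le_trans x y z h1 h2 := by
    rcases h1 with rfl | h1
    · exact h2
    · exact Or.inr h1
  le_antisymm x y h1 h2 := by
    rcases h1 with h1 | h1
    · exact h1
    · rcases h2 with h2 | h2
      · exact h2.symm
      · rw [h1, h2]

/-- The asked statement. -/
def Asked : Prop :=
  ∀ d : ℕ, 3 ≤ d →
    Tendsto (fun k : ℕ => (LaStar k d Vee : ℝ) / (w k d : ℝ)) atTop (𝓝 (1 + 1 / (d : ℝ)))

/-! ### The width of `[k]^3` -/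

lemma le_iff3 {k : ℕ} (x y : Grid k 3) :
    x ≤ y ↔ (x 0).val ≤ (y 0).val ∧ (x 1).val ≤ (y 1).val ∧ (x 2).val ≤ (y 2).val := by
  constructor
  · intro h; exact ⟨h 0, h 1, h 2⟩
  · rintro ⟨h0, h1, h2⟩ i
    fin_cases i
    · exact h0
    · exact h1
    · exact h2

/-- The chain of `[k]^2` that contains the projection of `x`. -/
def ci {k : ℕ} (x : Grid k 3) : ℕ := min (x 0).val (k - 1 - (x 1).val)

lemma fiber_le_k {k : ℕ} (F : Finset (Grid k 3))
    (hF : IsAntichain (· ≤ ·) (F : Set (Grid k 3))) (i : ℕ) :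
    (F.filter fun x => ci x = i).card ≤ k := by
  have hinj : Set.InjOn (fun x : Grid k 3 => x 2) (F.filter fun x => ci x = i : Finset _) := by
    intro x hx y hy hxy
    rw [Finset.mem_coe, Finset.mem_filter] at hx hy
    have hxy2 : (x 2).val = (y 2).val := congrArg Fin.val hxy
    by_contra hne
    have h1 : ¬ x ≤ y := hF hx.1 hy.1 hne
    have h2 : ¬ y ≤ x := hF hy.1 hx.1 (Ne.symm hne)
    simp only [le_iff3, ci] at h1 h2 hx hy
    have := (x 0).isLt
    have := (x 1).isLt
    have := (y 0).isLt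
    have := (y 1).isLt
    omega
  calc _ = ((F.filter fun x => ci x = i).image (fun x : Grid k 3 => x 2)).card :=
        (Finset.card_image_of_injOn hinj).symm
    _ ≤ (Finset.univ : Finset (Fin k)).card := Finset.card_le_card (Finset.subset_univ _)
    _ = k := by simp

lemma fiber_le {k : ℕ} (F : Finset (Grid k 3))
    (hF : IsAntichain (· ≤ ·) (F : Set (Grid k 3))) (i : ℕ) (hi : i < k) :
    (F.filter fun x => ci x = i).card ≤ 2 * (k - i) - 1 := by
  have hinj : Set.InjOn (fun x : Grid k 3 => (x 0).val + (x 1).val)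
      (F.filter fun x => ci x = i : Finset _) := by
    intro x hx y hy hxy
    rw [Finset.mem_coe, Finset.mem_filter] at hx hy
    have hxy2 : (x 0).val + (x 1).val = (y 0).val + (y 1).val := hxy
    by_contra hne
    have h1 : ¬ x ≤ y := hF hx.1 hy.1 hne
    have h2 : ¬ y ≤ x := hF hy.1 hx.1 (Ne.symm hne)
    simp only [le_iff3, ci] at h1 h2 hx hy
    have := (x 0).isLt
    have := (x 1).isLt
    have := (y 0).isLt
    have := (y 1).isLt
    omega
  have hsub : ((F.filter fun x => ci x = i).image (fun x : Grid k 3 => (x 0).val + (x 1).val)) ⊆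
      Finset.Icc i (2 * k - 2 - i) := by
    intro n hn
    rw [Finset.mem_image] at hn
    obtain ⟨x, hx, rfl⟩ := hn
    rw [Finset.mem_filter] at hx
    have := (x 0).isLt
    have := (x 1).isLt
    have hx2 := hx.2
    simp only [ci] at hx2
    rw [Finset.mem_Icc]
    omega
  calc _ = ((F.filter fun x => ci x = i).image (fun x : Grid k 3 => (x 0).val + (x 1).val)).card :=
        (Finset.card_image_of_injOn hinj).symm
    _ ≤ (Finset.Icc i (2 * k - 2 - i)).card := Finset.card_le_card hsub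
    _ = 2 * k - 2 - i + 1 - i := by simp
    _ ≤ 2 * (k - i) - 1 := by omega

lemma sum_odd (h : ℕ) : ∑ i ∈ Finset.range h, (2 * (h - i) - 1) = h * h := by
  rw [← Finset.sum_range_reflect]
  have : ∀ i ∈ Finset.range h, 2 * (h - (h - 1 - i)) - 1 = 2 * i + 1 := by
    intro i hi
    rw [Finset.mem_range] at hi
    omega
  rw [Finset.sum_congr rfl this]
  induction h with
  | zero => rfl
  | succ n ih =>
    rw [Finset.sum_range_succ]
    have h' : ∀ i ∈ Finset.range n, 2 * (n - (n - 1 - i)) - 1 = 2 * i + 1 := by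
      intro i hi
      rw [Finset.mem_range] at hi
      omega
    rw [ih h']
    ring

lemma antichain_card_le (h : ℕ) (F : Finset (Grid (2 * h) 3))
    (hF : IsAntichain (· ≤ ·) (F : Set (Grid (2 * h) 3))) : F.card ≤ 3 * (h * h) := by
  have hmaps : ∀ x ∈ F, ci x ∈ Finset.range (2 * h) := by
    intro x _
    have := (x 0).isLt
    simp only [ci, Finset.mem_range]
    omega
  have hs : ∀ f : ℕ → ℕ, ∑ i ∈ Finset.range (2 * h), f i =
      ∑ i ∈ Finset.range h, f i + ∑ i ∈ Finset.range h, f (h + i) := by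
    intro f
    rw [two_mul, Finset.sum_range_add]
  rw [Finset.card_eq_sum_card_fiberwise hmaps, hs]
  have h1 : ∑ i ∈ Finset.range h, (F.filter fun x => ci x = i).card ≤
      ∑ _i ∈ Finset.range h, 2 * h :=
    Finset.sum_le_sum fun i _ => fiber_le_k F hF i
  have h2 : ∑ i ∈ Finset.range h, (F.filter fun x => ci x = h + i).card ≤
      ∑ i ∈ Finset.range h, (2 * (h - i) - 1) := by
    refine Finset.sum_le_sum fun i hi => ?_
    rw [Finset.mem_range] at hi
    have := fiber_le F hF (h + i) (by omega)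
    omega
  rw [sum_odd] at h2
  rw [Finset.sum_const, Finset.card_range, smul_eq_mul] at h1
  nlinarith

lemma w_le (h : ℕ) : w (2 * h) 3 ≤ 3 * (h * h) := by
  unfold w
  apply csSup_le
  · exact ⟨0, ∅, by simp, by simp⟩
  · rintro n ⟨F, hF, rfl⟩
    exact antichain_card_le h F hF

lemma w_pos (k d : ℕ) (hk : 1 ≤ k) : 1 ≤ w k d := by
  unfold w
  apply le_csSup
  · refine ⟨Fintype.card (Grid k d), ?_⟩
    rintro n ⟨F, hF, rfl⟩
    exact Finset.card_le_univ F
  · refine ⟨{fun _ => ⟨0, hk⟩}, by simp, by simp⟩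

lemma le_LaStar {k d : ℕ} {P : Type} [PartialOrder P] (F : Finset (Grid k d))
    (hF : ¬ HasStrongCopy P F) : F.card ≤ LaStar k d P := by
  unfold LaStar
  apply le_csSup
  · refine ⟨Fintype.card (Grid k d), ?_⟩
    rintro n ⟨F, hF, rfl⟩
    exact Finset.card_le_univ F
  · exact ⟨F, hF, rfl⟩

/-! ### The family -/

/-- The layer `x + y + ⌊z/2⌋ = r`. -/
def famA (k r : ℕ) : Finset (Grid k 3) :=
  Finset.univ.filter fun x => (x 0).val + (x 1).val + (x 2).val / 2 = r

/-- The additional points: `z` odd, `x + y + ⌊z/2⌋ = r + 1`, `x ≡ y mod 3`. -/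
def famC (k r : ℕ) : Finset (Grid k 3) :=
  Finset.univ.filter fun x => (x 2).val % 2 = 1 ∧ (x 0).val + (x 1).val + (x 2).val / 2 = r + 1 ∧
    (x 0).val % 3 = (x 1).val % 3

lemma disj (k r : ℕ) : Disjoint (famA k r) (famC k r) := by
  rw [Finset.disjoint_left]
  intro x h1 h2
  simp only [famA, famC, Finset.mem_filter, Finset.mem_univ, true_and] at h1 h2
  omega

/-- The family is strong `∨₂`-free. -/
lemma fam_free (k r : ℕ) : ¬ HasStrongCopy Vee (famA k r ∪ famC k r) := by
  rintro ⟨f, hinj, hmem, hord⟩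
  have hab : f Vee.a ≤ f Vee.b1 := (hord _ _).1 (Or.inr rfl)
  have hac : f Vee.a ≤ f Vee.b2 := (hord _ _).1 (Or.inr rfl)
  have hbc : ¬ f Vee.b1 ≤ f Vee.b2 := fun h => by
    rcases (hord _ _).2 h with h | h <;> cases h
  have hcb : ¬ f Vee.b2 ≤ f Vee.b1 := fun h => by
    rcases (hord _ _).2 h with h | h <;> cases h
  have ha := hmem Vee.a
  have hb := hmem Vee.b1
  have hc := hmem Vee.b2
  generalize f Vee.a = a at *
  generalize f Vee.b1 = b at *
  generalize f Vee.b2 = c at *
  simp only [famA, famC, Finset.mem_union, Finset.mem_filter, Finset.mem_univ, true_and]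
    at ha hb hc
  rw [le_iff3] at hab hac hbc hcb
  generalize (a 0).val = a0 at *
  generalize (a 1).val = a1 at *
  generalize (a 2).val = a2 at *
  generalize (b 0).val = b0 at *
  generalize (b 1).val = b1 at *
  generalize (b 2).val = b2 at *
  generalize (c 0).val = c0 at *
  generalize (c 1).val = c1 at *
  generalize (c 2).val = c2 at *
  rcases ha with ha | ha <;> rcases hb with hb | hb <;> rcases hc with hc | hc <;> omega

lemma sum_pairs (n : ℕ) (g : ℕ → ℕ) :
    ∑ z ∈ Finset.range (2 * n), g z = ∑ j ∈ Finset.range n, (g (2 * j) + g (2 * j + 1)) := by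
  induction n with
  | zero => simp
  | succ n ih =>
    rw [show 2 * (n + 1) = 2 * n + 1 + 1 by ring, Finset.sum_range_succ, Finset.sum_range_succ, ih,
      Finset.sum_range_succ]
    ring

/-- The lower end of the range of `x` on the line `x + y = s`, `s = 5 q - 1 + e - j`. -/
def lo (q s : ℕ) : ℕ := s - (4 * q - 1)

/-- The number of points of the line `x + y = s` in `[4q]^2`. -/
def num (q s : ℕ) : ℕ := min s (4 * q - 1) + 1 - lo q s

lemma card_famA (q : ℕ) : 14 * (q * q) ≤ (famA (4 * q) (5 * q - 1)).card := by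
  classical
  let T : Finset ((_ : ℕ) × ℕ) := (Finset.range (2 * (2 * q))).sigma fun z =>
    Finset.Ico (lo q (5 * q - 1 - z / 2)) (lo q (5 * q - 1 - z / 2) + num q (5 * q - 1 - z / 2))
  have hT : T ⊆ (famA (4 * q) (5 * q - 1)).image fun x => ⟨(x 2).val, (x 0).val⟩ := by
    rintro ⟨z, x⟩ h
    simp only [T, Finset.mem_sigma, Finset.mem_range, Finset.mem_Ico, lo, num] at h
    rw [Finset.mem_image]
    refine ⟨![⟨x, by omega⟩, ⟨5 * q - 1 - z / 2 - x, by omega⟩, ⟨z, by omega⟩], ?_, ?_⟩
    · simp only [famA, Finset.mem_filter, Finset.mem_univ, true_and, Matrix.cons_val_zero,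
        Matrix.cons_val_one, Matrix.cons_val]
      omega
    · simp
  have h1 : T.card ≤ (famA (4 * q) (5 * q - 1)).card :=
    (Finset.card_le_card hT).trans Finset.card_image_le
  refine le_trans ?_ h1
  simp only [T, Finset.card_sigma, Nat.card_Ico]
  rw [sum_pairs, two_mul q, Finset.sum_range_add, ← Finset.sum_add_distrib]
  have h3 : ∑ _j ∈ Finset.range q, 14 * q = 14 * (q * q) := by
    rw [Finset.sum_const, Finset.card_range, smul_eq_mul]
    ring
  rw [← h3]
  refine Finset.sum_le_sum fun j hj => ?_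
  rw [Finset.mem_range] at hj
  simp only [lo, num]
  omega

lemma card_famC (q : ℕ) : 7 * (q * q) ≤ 3 * (famC (4 * q) (5 * q - 1)).card + 6 * q := by
  classical
  let T : Finset ((_ : ℕ) × ℕ) := (Finset.range (2 * q)).sigma fun j =>
    Finset.range (num q (5 * q - j) / 3)
  have hT : T ⊆ (famC (4 * q) (5 * q - 1)).image fun x =>
      ⟨(x 2).val / 2, ((x 0).val - lo q (5 * q - (x 2).val / 2)) / 3⟩ := by
    rintro ⟨j, i⟩ h
    simp only [T, Finset.mem_sigma, Finset.mem_range, lo, num] at h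
    rw [Finset.mem_image]
    obtain ⟨x, hx1, hx2, hx3⟩ : ∃ x, lo q (5 * q - j) + 3 * i ≤ x ∧
        x ≤ lo q (5 * q - j) + 3 * i + 2 ∧ (2 * x) % 3 = (5 * q - j) % 3 := by
      refine ⟨lo q (5 * q - j) + 3 * i +
        (2 * (5 * q - j) + 2 * (lo q (5 * q - j) + 3 * i)) % 3, by omega, by omega, ?_⟩
      omega
    simp only [lo] at hx1 hx2
    refine ⟨![⟨x, by omega⟩, ⟨5 * q - j - x, by omega⟩, ⟨2 * j + 1, by omega⟩], ?_, ?_⟩
    · simp only [famC, Finset.mem_filter, Finset.mem_univ, true_and, Matrix.cons_val_zero,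
        Matrix.cons_val_one, Matrix.cons_val]
      omega
    · have e1 : (2 * j + 1) / 2 = j := by omega
      simp only [Matrix.cons_val_zero, Matrix.cons_val, e1, lo, Sigma.mk.injEq, heq_eq_eq, true_and]
      omega
  have h1 : T.card ≤ (famC (4 * q) (5 * q - 1)).card :=
    (Finset.card_le_card hT).trans Finset.card_image_le
  have h0 : 7 * (q * q) ≤ 3 * T.card + 6 * q := by
    simp only [T, Finset.card_sigma, Finset.card_range]
    rw [two_mul q, Finset.sum_range_add, ← Finset.sum_add_distrib, Finset.mul_sum]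
    have h2 : ∑ _j ∈ Finset.range q, 7 * q ≤ ∑ j ∈ Finset.range q,
        (3 * (num q (5 * q - j) / 3 + num q (5 * q - (q + j)) / 3) + 6) := by
      refine Finset.sum_le_sum fun j hj => ?_
      rw [Finset.mem_range] at hj
      simp only [num, lo]
      omega
    rw [Finset.sum_add_distrib, Finset.sum_const, Finset.sum_const, Finset.card_range,
      smul_eq_mul, smul_eq_mul] at h2
    nlinarith
  omega

/-- The lower bound: `3 La*([4q]^3, ∨₂) ≥ 49 q² - 6 q`. -/
lemma LaStar_ge (q : ℕ) : 49 * (q * q) ≤ 3 * LaStar (4 * q) 3 Vee + 6 * q := by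
  have h1 := card_famA q
  have h2 := card_famC q
  have h3 := le_LaStar _ (fam_free (4 * q) (5 * q - 1))
  rw [Finset.card_union_of_disjoint (disj _ _)] at h3
  omega

/-- **The asked statement is false**, already for `d = 3`. -/
theorem result :
    (∀ q : ℕ, 49 * q ^ 2 ≤ 3 * LaStar (4 * q) 3 Vee + 6 * q ∧ w (4 * q) 3 ≤ 12 * q ^ 2) ∧
    ¬ Tendsto (fun k : ℕ => (LaStar k 3 Vee : ℝ) / (w k 3 : ℝ)) atTop
        (𝓝 (1 + 1 / ((3 : ℕ) : ℝ))) ∧
    ¬ Asked := by
  have hA : ∀ q : ℕ, 49 * q ^ 2 ≤ 3 * LaStar (4 * q) 3 Vee + 6 * q ∧ w (4 * q) 3 ≤ 12 * q ^ 2 := by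
    intro q
    refine ⟨?_, ?_⟩
    · rw [pow_two]; exact LaStar_ge q
    · have h := w_le (2 * q)
      rw [show 2 * (2 * q) = 4 * q by ring] at h
      nlinarith
  have hnot : ¬ Tendsto (fun k : ℕ => (LaStar k 3 Vee : ℝ) / (w k 3 : ℝ)) atTop
      (𝓝 (1 + 1 / ((3 : ℕ) : ℝ))) := by
    intro h
    have h1 : ∀ᶠ k : ℕ in atTop, (LaStar k 3 Vee : ℝ) / (w k 3 : ℝ) < 4.02 / 3 :=
      h.eventually_lt_const (by norm_num)
    have h2 : Tendsto (fun q : ℕ => 4 * q) atTop atTop := by
      apply tendsto_atTop_mono (fun q => ?_) tendsto_id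
      simp only [id]; omega
    obtain ⟨q, hk1, hk2⟩ := ((h2.eventually h1).and (eventually_ge_atTop 100)).exists
    have hw0 : (1 : ℝ) ≤ (w (4 * q) 3 : ℝ) := by exact_mod_cast w_pos (4 * q) 3 (by omega)
    have hw1 : (w (4 * q) 3 : ℝ) ≤ 12 * (q : ℝ) ^ 2 := by exact_mod_cast (hA q).2
    have hL : 49 * (q : ℝ) ^ 2 ≤ 3 * LaStar (4 * q) 3 Vee + 6 * q := by
      exact_mod_cast (hA q).1
    have hq : (100 : ℝ) ≤ q := by exact_mod_cast hk2
    rw [div_lt_iff₀ (by linarith)] at hk1
    nlinarith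
  exact ⟨hA, hnot, fun h => hnot (h 3 le_rfl)⟩

end Pool.Agent.Results.MP_8ac0e4_co.VeeGrid
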